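import Mathlib

namespace Pool.Agent.Results.MP_058057_co.StrictFails

open Finset

/-- The finite sets of positive integers, none divisible by `4`, with sum `n`
(that is, the partitions of `n` into distinct parts, no part divisible by `4`). -/
def parts (n : ℕ) : Finset (Finset ℕ) :=
  (((Finset.Icc 1 n).filter (fun m => ¬ 4 ∣ m)).powerset).filter (fun s => ∑ x ∈ s, x = n)

/-- `Q_0(m)` for an integer `m`: it is `0` for `m < 0`, and for `m ≥ 0` the number of
partitions of `m` into distinct parts, no part divisible by `4`. -/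
def Q0 (m : ℤ) : ℤ := if m < 0 then 0 else ((parts m.toNat).card : ℤ)

/-- `ξ_n`: it is `2(-1)^m` if `n = 4m²` with `m ≥ 1`, `1` if `n = 0`, and `0` otherwise. -/
def xi (n : ℕ) : ℤ :=
  ∑ m ∈ Finset.range (n + 1), if n = 4 * m ^ 2 then (if m = 0 then 1 else 2 * (-1) ^ m) else 0

/-- `S_k(n)`, the sum of the first `2k` terms of the signed sum over triangular numbers. -/
def S (k n : ℕ) : ℤ :=
  ∑ j ∈ Finset.range (2 * k), (-1) ^ (j * (j + 1) / 2) * Q0 ((n : ℤ) - (j * (j + 1) / 2 : ℕ))

lemma mem_parts (n : ℕ) (s : Finset ℕ) :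
    s ∈ parts n ↔ (∀ x ∈ s, 1 ≤ x ∧ ¬ 4 ∣ x) ∧ ∑ x ∈ s, x = n := by
  unfold parts
  rw [Finset.mem_filter, Finset.mem_powerset]
  constructor
  · rintro ⟨h1, h2⟩
    refine ⟨fun x hx => ?_, h2⟩
    have := h1 hx
    rw [Finset.mem_filter, Finset.mem_Icc] at this
    exact ⟨this.1.1, this.2⟩
  · rintro ⟨h1, h2⟩
    refine ⟨fun x hx => ?_, h2⟩
    rw [Finset.mem_filter, Finset.mem_Icc]
    refine ⟨⟨(h1 x hx).1, ?_⟩, (h1 x hx).2⟩
    rw [← h2]
    exact Finset.single_le_sum (f := fun y : ℕ => y) (fun i _ => Nat.zero_le _) hx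

/-- partitions into distinct parts at least 3, none divisible by 4 -/
def rparts (n : ℕ) : Finset (Finset ℕ) :=
  (((Finset.Icc 3 n).filter (fun m => ¬ 4 ∣ m)).powerset).filter (fun s => ∑ x ∈ s, x = n)

lemma mem_rparts (n : ℕ) (s : Finset ℕ) :
    s ∈ rparts n ↔ (∀ x ∈ s, 3 ≤ x ∧ ¬ 4 ∣ x) ∧ ∑ x ∈ s, x = n := by
  unfold rparts
  rw [Finset.mem_filter, Finset.mem_powerset]
  constructor
  · rintro ⟨h1, h2⟩
    refine ⟨fun x hx => ?_, h2⟩
    have := h1 hx
    rw [Finset.mem_filter, Finset.mem_Icc] at this
    exact ⟨this.1.1, this.2⟩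
  · rintro ⟨h1, h2⟩
    refine ⟨fun x hx => ?_, h2⟩
    rw [Finset.mem_filter, Finset.mem_Icc]
    refine ⟨⟨(h1 x hx).1, ?_⟩, (h1 x hx).2⟩
    rw [← h2]
    exact Finset.single_le_sum (f := fun y : ℕ => y) (fun i _ => Nat.zero_le _) hx

lemma parts_eq (n : ℕ) :
    parts (n + 3) = ((rparts (n + 3) ∪ (rparts (n + 2)).image (insert 1)) ∪
      (rparts (n + 1)).image (insert 2)) ∪ (rparts n).image (fun s => insert 1 (insert 2 s)) := by
  ext s
  simp only [Finset.mem_union, Finset.mem_image]
  rw [mem_parts]
  constructor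
  · rintro ⟨h1, h2⟩
    by_cases a1 : 1 ∈ s
    · by_cases a2 : 2 ∈ s
      · right
        refine ⟨(s.erase 1).erase 2, ?_, ?_⟩
        · rw [mem_rparts]
          constructor
          · intro x hx
            simp only [Finset.mem_erase, ne_eq] at hx
            have := h1 x hx.2.2
            refine ⟨?_, this.2⟩
            omega
          · have e1 := Finset.add_sum_erase s (fun x => x) a1
            have e2 := Finset.add_sum_erase (s.erase 1) (fun x => x)
              (a := 2) (by simp [a2])
            omega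
        · rw [Finset.insert_erase (by simp [a2]), Finset.insert_erase a1]
      · left; left; right
        refine ⟨s.erase 1, ?_, ?_⟩
        · rw [mem_rparts]
          constructor
          · intro x hx
            simp only [Finset.mem_erase, ne_eq] at hx
            have := h1 x hx.2
            refine ⟨?_, this.2⟩
            have : x ≠ 2 := by rintro rfl; exact a2 hx.2
            omega
          · have e1 := Finset.add_sum_erase s (fun x => x) a1
            omega
        · rw [Finset.insert_erase a1]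
    · by_cases a2 : 2 ∈ s
      · left; right
        refine ⟨s.erase 2, ?_, ?_⟩
        · rw [mem_rparts]
          constructor
          · intro x hx
            simp only [Finset.mem_erase, ne_eq] at hx
            have := h1 x hx.2
            refine ⟨?_, this.2⟩
            have : x ≠ 1 := by rintro rfl; exact a1 hx.2
            omega
          · have e1 := Finset.add_sum_erase s (fun x => x) a2
            omega
        · rw [Finset.insert_erase a2]
      · left; left; left
        rw [mem_rparts]
        refine ⟨fun x hx => ?_, h2⟩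
        have := h1 x hx
        refine ⟨?_, this.2⟩
        have : x ≠ 1 := by rintro rfl; exact a1 hx
        have : x ≠ 2 := by rintro rfl; exact a2 hx
        omega
  · rintro (((h | ⟨t, h, rfl⟩) | ⟨t, h, rfl⟩) | ⟨t, h, rfl⟩)
    · rw [mem_rparts] at h
      exact ⟨fun x hx => ⟨by have := (h.1 x hx).1; omega, (h.1 x hx).2⟩, h.2⟩
    · rw [mem_rparts] at h
      have n1 : 1 ∉ t := fun hx => by have := (h.1 1 hx).1; omega
      refine ⟨fun x hx => ?_, ?_⟩
      · rcases Finset.mem_insert.1 hx with rfl | hx
        · omega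
        · exact ⟨by have := (h.1 x hx).1; omega, (h.1 x hx).2⟩
      · rw [Finset.sum_insert n1, h.2]; omega
    · rw [mem_rparts] at h
      have n2 : 2 ∉ t := fun hx => by have := (h.1 2 hx).1; omega
      refine ⟨fun x hx => ?_, ?_⟩
      · rcases Finset.mem_insert.1 hx with rfl | hx
        · omega
        · exact ⟨by have := (h.1 x hx).1; omega, (h.1 x hx).2⟩
      · rw [Finset.sum_insert n2, h.2]; omega
    · rw [mem_rparts] at h
      have n1 : 1 ∉ insert 2 t := fun hx => by
        rcases Finset.mem_insert.1 hx with hx | hx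
        · omega
        · have := (h.1 1 hx).1; omega
      have n2 : 2 ∉ t := fun hx => by have := (h.1 2 hx).1; omega
      refine ⟨fun x hx => ?_, ?_⟩
      · rcases Finset.mem_insert.1 hx with rfl | hx
        · omega
        · rcases Finset.mem_insert.1 hx with rfl | hx
          · omega
          · exact ⟨by have := (h.1 x hx).1; omega, (h.1 x hx).2⟩
      · rw [Finset.sum_insert n1, Finset.sum_insert n2, h.2]; omega

lemma not_mem_one {n : ℕ} {t : Finset ℕ} (h : t ∈ rparts n) : 1 ∉ t := fun hx => by
  rw [mem_rparts] at h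
  have := (h.1 1 hx).1; omega

lemma not_mem_two {n : ℕ} {t : Finset ℕ} (h : t ∈ rparts n) : 2 ∉ t := fun hx => by
  rw [mem_rparts] at h
  have := (h.1 2 hx).1; omega

lemma card_parts (n : ℕ) :
    (parts (n + 3)).card = (rparts (n + 3)).card + (rparts (n + 2)).card +
      (rparts (n + 1)).card + (rparts n).card := by
  rw [parts_eq]
  rw [Finset.card_union_of_disjoint, Finset.card_union_of_disjoint, Finset.card_union_of_disjoint]
  · rw [Finset.card_image_of_injOn, Finset.card_image_of_injOn, Finset.card_image_of_injOn]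
    · intro a ha b hb hab
      have a1 := not_mem_one ha
      have b1 := not_mem_one hb
      have a2 := not_mem_two ha
      have b2 := not_mem_two hb
      simp only at hab
      have : 1 ∉ insert 2 a := by simp [a1]
      have h1 : insert 2 a = insert 2 b := by
        rw [← Finset.erase_insert (a := 1) (s := insert 2 a) (by simp [a1]), hab,
          Finset.erase_insert (by simp [b1])]
      rw [← Finset.erase_insert a2, h1, Finset.erase_insert b2]
    · intro a ha b hb hab
      rw [← Finset.erase_insert (not_mem_two ha), hab, Finset.erase_insert (not_mem_two hb)]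
    · intro a ha b hb hab
      rw [← Finset.erase_insert (not_mem_one ha), hab, Finset.erase_insert (not_mem_one hb)]
  · rw [Finset.disjoint_left]
    intro s hs ht
    rw [Finset.mem_image] at ht
    obtain ⟨t, ht, rfl⟩ := ht
    exact not_mem_one hs (by simp)
  · rw [Finset.disjoint_left]
    intro s hs ht
    rw [Finset.mem_image] at ht
    obtain ⟨t, ht, rfl⟩ := ht
    rw [Finset.mem_union, Finset.mem_image] at hs
    rcases hs with hs | ⟨u, hu, hu2⟩
    · exact not_mem_two hs (by simp)
    · have : 1 ∈ insert 2 t := by rw [← hu2]; simp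
      have h1 := not_mem_one ht
      simp [h1] at this
  · rw [Finset.disjoint_left]
    intro s hs ht
    rw [Finset.mem_image] at ht
    obtain ⟨t, ht, rfl⟩ := ht
    rw [Finset.mem_union, Finset.mem_union, Finset.mem_image, Finset.mem_image] at hs
    rcases hs with (hs | ⟨u, hu, hu2⟩) | ⟨u, hu, hu2⟩
    · exact not_mem_two hs (by simp)
    · have : 2 ∈ insert 1 u := by rw [hu2]; simp
      have h1 := not_mem_two hu
      simp [h1] at this
    · have : 1 ∈ insert 2 u := by rw [hu2]; simp
      have h1 := not_mem_one hu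
      simp [h1] at this

/-- add 4 to the largest element -/
def up (s : Finset ℕ) : Finset ℕ := insert (s.sup id + 4) (s.erase (s.sup id))

/-- subtract 4 from the largest element -/
def down (s : Finset ℕ) : Finset ℕ := insert (s.sup id - 4) (s.erase (s.sup id))

lemma sup_mem {s : Finset ℕ} (h : s.Nonempty) : s.sup id ∈ s := by
  obtain ⟨x, hx, hx2⟩ := Finset.exists_mem_eq_sup s h id
  rw [hx2]; exact hx

lemma le_sup' {s : Finset ℕ} {x : ℕ} (h : x ∈ s) : x ≤ s.sup id := Finset.le_sup (f := id) h

lemma nonempty_of_mem {n : ℕ} {s : Finset ℕ} (h : s ∈ rparts (n + 1)) : s.Nonempty := by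
  rw [mem_rparts] at h
  by_contra hs
  rw [Finset.not_nonempty_iff_eq_empty] at hs
  subst hs
  simp at h

lemma sup_up (s : Finset ℕ) : (up s).sup id = s.sup id + 4 := by
  unfold up
  rw [Finset.sup_insert]
  apply le_antisymm
  · apply sup_le
    · exact le_rfl
    · apply Finset.sup_le
      intro x hx
      have := le_sup' (Finset.mem_of_mem_erase hx)
      simp only [id]
      omega
  · exact le_sup_left

lemma down_up {s : Finset ℕ} (h : s.Nonempty) : down (up s) = s := by
  unfold down
  rw [sup_up]
  unfold up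
  have : s.sup id + 4 ∉ s.erase (s.sup id) := by
    intro hx
    have := le_sup' (Finset.mem_of_mem_erase hx)
    omega
  rw [Finset.erase_insert this, Nat.add_sub_cancel, Finset.insert_erase (sup_mem h)]

lemma up_mem {n : ℕ} {s : Finset ℕ} (h : s ∈ rparts (n + 1)) : up s ∈ rparts (n + 5) := by
  have hne := nonempty_of_mem h
  have hm := sup_mem hne
  rw [mem_rparts] at h ⊢
  have hnot : s.sup id + 4 ∉ s.erase (s.sup id) := by
    intro hx
    have := le_sup' (Finset.mem_of_mem_erase hx)
    omega
  have e1 := Finset.add_sum_erase s (fun x => x) hm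
  unfold up
  refine ⟨fun x hx => ?_, ?_⟩
  · rcases Finset.mem_insert.1 hx with rfl | hx
    · have := h.1 _ hm
      omega
    · exact h.1 x (Finset.mem_of_mem_erase hx)
  · rw [Finset.sum_insert hnot]
    omega

/-- the sets that are not hit by `up` -/
def bad (s : Finset ℕ) : Prop := ∃ a ∈ s, ∃ b ∈ s, a < b ∧ b ≤ a + 4 ∧ ∀ x ∈ s, x ≤ b

lemma not_bad_up {s : Finset ℕ} : ¬ bad (up s) := by
  rintro ⟨a, ha, b, hb, hab, hba, hmax⟩
  have hb2 : b = s.sup id + 4 := by
    rw [← sup_up]
    apply le_antisymm (le_sup' hb)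
    apply Finset.sup_le
    intro x hx
    exact hmax x hx
  unfold up at ha
  rcases Finset.mem_insert.1 ha with ha | ha
  · omega
  · rw [Finset.mem_erase] at ha
    have := le_sup' ha.2
    omega

lemma card_ge (n : ℕ) (W : Finset (Finset ℕ)) (hW : W ⊆ rparts (n + 5)) (hb : ∀ s ∈ W, bad s) :
    (rparts (n + 1)).card + W.card ≤ (rparts (n + 5)).card := by
  have h1 : ((rparts (n + 1)).image up).card = (rparts (n + 1)).card := by
    apply Finset.card_image_of_injOn
    intro a ha b hb hab
    rw [← down_up (nonempty_of_mem ha), hab, down_up (nonempty_of_mem hb)]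
  rw [← h1, ← Finset.card_union_of_disjoint]
  · apply Finset.card_le_card
    intro s hs
    rcases Finset.mem_union.1 hs with hs | hs
    · obtain ⟨t, ht, rfl⟩ := Finset.mem_image.1 hs
      exact up_mem ht
    · exact hW hs
  · rw [Finset.disjoint_left]
    intro s hs ht
    obtain ⟨t, ht', rfl⟩ := Finset.mem_image.1 hs
    exact not_bad_up (hb _ ht)

lemma pair_mem {n a b : ℕ} (ha : 3 ≤ a) (hab : a < b) (h4 : ¬ 4 ∣ a) (h4' : ¬ 4 ∣ b)
    (hs : a + b = n) : ({a, b} : Finset ℕ) ∈ rparts n := by
  rw [mem_rparts]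
  refine ⟨fun x hx => ?_, ?_⟩
  · simp only [Finset.mem_insert, Finset.mem_singleton] at hx
    rcases hx with rfl | rfl
    · exact ⟨ha, h4⟩
    · exact ⟨by omega, h4'⟩
  · rw [Finset.sum_pair (by omega), hs]

lemma pair_bad {a b : ℕ} (hab : a < b) (h4 : b ≤ a + 4) : bad ({a, b} : Finset ℕ) := by
  refine ⟨a, by simp, b, by simp, hab, h4, ?_⟩
  intro x hx
  simp only [Finset.mem_insert, Finset.mem_singleton] at hx
  omega

lemma one_le_of_odd_or_even (n : ℕ) (hn : 3 ≤ n) :
    ∃ s ∈ rparts (n + 5), bad s := by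
  have h8 : (n + 5) % 8 < 8 := Nat.mod_lt _ (by norm_num)
  obtain ⟨m, hm⟩ : ∃ m, m = (n + 5) / 2 := ⟨_, rfl⟩
  rcases Nat.even_or_odd (n + 5) with he | ho
  · obtain ⟨r, hr⟩ := he
    rcases Nat.even_or_odd r with hr2 | hr2
    · obtain ⟨u, hu⟩ := hr2
      refine ⟨{r - 1, r + 1}, pair_mem (by omega) (by omega) (by omega) (by omega) (by omega),
        pair_bad (by omega) (by omega)⟩
    · obtain ⟨u, hu⟩ := hr2
      refine ⟨{r - 2, r + 2}, pair_mem (by omega) (by omega) (by omega) (by omega) (by omega),
        pair_bad (by omega) (by omega)⟩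
  · obtain ⟨r, hr⟩ := ho
    by_cases h1 : 4 ∣ r
    · refine ⟨{r - 1, r + 2}, pair_mem (by omega) (by omega) (by omega) (by omega) (by omega),
        pair_bad (by omega) (by omega)⟩
    · by_cases h2 : 4 ∣ r + 1
      · refine ⟨{r - 1, r + 2}, pair_mem (by omega) (by omega) (by omega) (by omega) (by omega),
          pair_bad (by omega) (by omega)⟩
      · refine ⟨{r, r + 1}, pair_mem (by omega) (by omega) (by omega) (by omega) (by omega),
          pair_bad (by omega) (by omega)⟩

lemma rparts_lt (n : ℕ) (hn : 3 ≤ n) : (rparts (n + 1)).card < (rparts (n + 5)).card := by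
  obtain ⟨s, hs, hb⟩ := one_le_of_odd_or_even n hn
  have := card_ge n {s} (by simpa using hs) (by simpa using hb)
  rw [Finset.card_singleton] at this
  omega

lemma rparts_three (u : ℕ) (hu : 1 ≤ u) :
    (rparts (16 * u ^ 2 - 5 + 1)).card + 3 ≤ (rparts (16 * u ^ 2 - 5 + 5)).card := by
  have hu2 : 1 ≤ u ^ 2 := Nat.one_le_pow _ _ hu
  obtain ⟨v, hv⟩ : ∃ v, v = u ^ 2 := ⟨_, rfl⟩
  rw [← hv] at hu2 ⊢
  have hmem3 : ({3, 8 * v - 2, 8 * v - 1} : Finset ℕ) ∈ rparts (16 * v - 5 + 5) := by
    rw [mem_rparts]
    refine ⟨fun x hx => ?_, ?_⟩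
    · simp only [Finset.mem_insert, Finset.mem_singleton] at hx
      rcases hx with rfl | rfl | rfl <;> omega
    · rw [Finset.sum_insert (by simp; omega), Finset.sum_pair (by omega)]
      omega
  have h := card_ge (16 * v - 5) {{8 * v - 1, 8 * v + 1}, {8 * v - 2, 8 * v + 2},
    {3, 8 * v - 2, 8 * v - 1}} ?_ ?_
  · have hc : ({{8 * v - 1, 8 * v + 1}, {8 * v - 2, 8 * v + 2},
        {3, 8 * v - 2, 8 * v - 1}} : Finset (Finset ℕ)).card = 3 := by
      rw [Finset.card_insert_of_notMem, Finset.card_pair]
      · intro h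
        have : 8 * v + 2 ∈ ({3, 8 * v - 2, 8 * v - 1} : Finset ℕ) := by rw [← h]; simp
        simp only [Finset.mem_insert, Finset.mem_singleton] at this
        omega
      · intro h
        simp only [Finset.mem_insert, Finset.mem_singleton] at h
        rcases h with h | h
        · have : 8 * v + 2 ∈ ({8 * v - 1, 8 * v + 1} : Finset ℕ) := by rw [h]; simp
          simp only [Finset.mem_insert, Finset.mem_singleton] at this
          omega
        · have : 8 * v + 1 ∈ ({3, 8 * v - 2, 8 * v - 1} : Finset ℕ) := by rw [← h]; simp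
          simp only [Finset.mem_insert, Finset.mem_singleton] at this
          omega
    omega
  · intro s hs
    simp only [Finset.mem_insert, Finset.mem_singleton] at hs
    rcases hs with rfl | rfl | rfl
    · exact pair_mem (by omega) (by omega) (by omega) (by omega) (by omega)
    · exact pair_mem (by omega) (by omega) (by omega) (by omega) (by omega)
    · exact hmem3
  · intro s hs
    simp only [Finset.mem_insert, Finset.mem_singleton] at hs
    rcases hs with rfl | rfl | rfl
    · exact pair_bad (by omega) (by omega)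
    · exact pair_bad (by omega) (by omega)
    · refine ⟨8 * v - 2, by simp, 8 * v - 1, by simp, by omega, by omega, ?_⟩
      intro x hx
      simp only [Finset.mem_insert, Finset.mem_singleton] at hx
      omega

lemma S_one (n : ℕ) : S 1 n = Q0 n - Q0 ((n : ℤ) - 1) := by
  unfold S
  simp [Finset.sum_range_succ]
  ring

lemma Q0_diff (n : ℕ) : Q0 ((n + 4 : ℕ) : ℤ) - Q0 (((n + 4 : ℕ) : ℤ) - 1) =
    ((rparts (n + 4)).card : ℤ) - ((rparts n).card : ℤ) := by
  have e : (((n + 4 : ℕ) : ℤ) - 1) = ((n + 3 : ℕ) : ℤ) := by push_cast; ring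
  rw [e]
  unfold Q0
  rw [if_neg (by omega), if_neg (by omega)]
  simp only [Int.toNat_natCast]
  rw [show n + 4 = (n + 1) + 3 by ring, card_parts (n + 1), card_parts n]
  push_cast
  ring_nf

lemma xi_of_sq (m : ℕ) (hm : 1 ≤ m) : xi (4 * m ^ 2) = 2 * (-1) ^ m := by
  unfold xi
  rw [Finset.sum_eq_single m]
  · rw [if_pos rfl, if_neg (by omega)]
  · intro b _ hb
    rw [if_neg]
    intro h
    apply hb
    have : m ^ 2 = b ^ 2 := by omega
    exact ((Nat.pow_left_injective (n := 2) (by norm_num)) this).symm
  · intro h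
    exfalso
    apply h
    rw [Finset.mem_range]
    nlinarith

lemma xi_of_not (n : ℕ) (h : ∀ m, n ≠ 4 * m ^ 2) : xi n = 0 := by
  unfold xi
  apply Finset.sum_eq_zero
  intro m _
  rw [if_neg (h m)]

/-- The complete answer for `k = 1`: the inequality always holds, and it is strict exactly for
`n ≥ 3` with `n ≠ 7`. -/
theorem k_one (n : ℕ) :
    0 ≤ S 1 n - xi n ∧ (0 < S 1 n - xi n ↔ 3 ≤ n ∧ n ≠ 7) := by
  rcases Nat.lt_or_ge n 8 with h8 | h8
  · interval_cases n <;> decide +kernel
  · obtain ⟨r, rfl⟩ : ∃ r, n = r + 8 := ⟨n - 8, by omega⟩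
    have key : 0 < S 1 (r + 8) - xi (r + 8) := by
      rw [S_one]
      have := Q0_diff (r + 4)
      rw [show r + 4 + 4 = r + 8 by ring] at this
      rw [this]
      by_cases hsq : ∃ m, r + 8 = 4 * m ^ 2
      · obtain ⟨m, hm⟩ := hsq
        have hm1 : 1 ≤ m := by
          by_contra h0
          have : m = 0 := by omega
          subst this
          omega
        rw [hm, xi_of_sq m hm1]
        rcases Nat.even_or_odd m with he | ho
        · obtain ⟨u, hu⟩ := he
          have hu1 : 1 ≤ u := by omega
          have hmu : 4 * m ^ 2 = 16 * u ^ 2 := by rw [hu]; ring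
          have h3 := rparts_three u hu1
          have hu2 : 1 ≤ u ^ 2 := Nat.one_le_pow _ _ hu1
          rw [← hmu, ← hm, show r + 8 - 5 + 1 = r + 4 by omega,
            show r + 8 - 5 + 5 = r + 8 by omega] at h3
          have : (-1 : ℤ) ^ m = 1 := by rw [hu, ← two_mul]; simp
          rw [this, ← hm]
          omega
        · have : (-1 : ℤ) ^ m = -1 := Odd.neg_one_pow ho
          have h3 := rparts_lt (r + 3) (by omega)
          rw [show r + 3 + 1 = r + 4 by ring, show r + 3 + 5 = r + 8 by ring] at h3
          rw [this, ← hm]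
          omega
      · have h0 := xi_of_not (r + 8) (fun m hm => hsq ⟨m, hm⟩)
        have h3 := rparts_lt (r + 3) (by omega)
        rw [show r + 3 + 1 = r + 4 by ring, show r + 3 + 5 = r + 8 by ring] at h3
        rw [h0]
        omega
    refine ⟨key.le, ?_⟩
    constructor
    · intro _; omega
    · intro _; exact key

/-- **The conjecture fails, at `(n, k) = (7, 1)`; for `k = 1` this is the only failure.**
First part: for `k = 1` and every `n`, the inequality `S_1(n) - ξ_n ≥ 0` holds and it is strict
if and only if `n ≥ 3` and `n ≠ 7`. Second part: the conjectured statement (inequality for all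
`n` and `k`, strict if and only if `n ≥ k(2k+1)`) is false. -/
theorem result :
    (∀ n : ℕ, 0 ≤ (-1 : ℤ) ^ (1 - 1) * (S 1 n - xi n) ∧
      (0 < (-1 : ℤ) ^ (1 - 1) * (S 1 n - xi n) ↔ 1 * (2 * 1 + 1) ≤ n ∧ n ≠ 7)) ∧
    ¬ (∀ n k : ℕ, 1 ≤ k → 0 ≤ (-1 : ℤ) ^ (k - 1) * (S k n - xi n) ∧
      (0 < (-1 : ℤ) ^ (k - 1) * (S k n - xi n) ↔ k * (2 * k + 1) ≤ n)) := by
  refine ⟨fun n => ?_, fun h => ?_⟩
  · have := k_one n
    simpa using this
  · have h1 := (h 7 1 le_rfl).2
    have h2 := k_one 7
    simp at h1 h2
    omega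

end Pool.Agent.Results.MP_058057_co.StrictFails
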